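import Pool.Agent.Helper74.OKA.Defs

/-! # C1: chart sprays are étale -/

set_option autoImplicit false

open Set Metric Topology
open scoped Manifold ContDiff

namespace Pool.Agent.Helper85.OKA

open Pool.Agent.Helper74.OKA

universe u

namespace C1

variable (F : Type) [NormedAddCommGroup F] [NormedSpace ℂ F]
  {Y : Type u} [MetricSpace Y] [ChartedSpace F Y] [IsManifold 𝓘(ℂ, F) 1 Y]

/-- reading a holomorphic map in a chart -/
theorem chart_comp {Z : Type} [NormedAddCommGroup Z] [NormedSpace ℂ Z] (y₀ : Y) {D : Set Z}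
    {g : Z → Y} (hg : MDifferentiableOn 𝓘(ℂ, Z) 𝓘(ℂ, F) g D)
    (h : ∀ x ∈ D, g x ∈ (chartAt F y₀).source) :
    DifferentiableOn ℂ (fun x => chartAt F y₀ (g x)) D := by
  rw [← mdifferentiableOn_iff_differentiableOn]
  exact (mdifferentiableOn_atlas (I := 𝓘(ℂ, F)) (chart_mem_atlas F y₀)).comp hg h

theorem symm_comp {Z : Type} [NormedAddCommGroup Z] [NormedSpace ℂ Z] (y₀ : Y) {D : Set Z}
    {g : Z → F} (hg : DifferentiableOn ℂ g D)
    (h : ∀ x ∈ D, g x ∈ (chartAt F y₀).target) :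
    MDifferentiableOn 𝓘(ℂ, Z) 𝓘(ℂ, F) (fun x => (chartAt F y₀).symm (g x)) D :=
  (mdifferentiableOn_atlas_symm (I := 𝓘(ℂ, F)) (chart_mem_atlas F y₀)).comp
    hg.mdifferentiableOn h

end C1

variable (F : Type) [NormedAddCommGroup F] [NormedSpace ℂ F] [FiniteDimensional ℂ F]
  {Y : Type u} [MetricSpace Y] [ChartedSpace F Y] [IsManifold 𝓘(ℂ, F) 1 Y]
  {E : Type} [NormedAddCommGroup E] [NormedSpace ℂ E] [FiniteDimensional ℂ E]

/-- C1: chart sprays are étale -/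
theorem etaleAt_chart (f : E → Y) (U : Set E) (hU : IsOpen U)
    (hf : MDifferentiableOn 𝓘(ℂ, E) 𝓘(ℂ, F) f U) (z₀ : E) (hz₀ : z₀ ∈ U) :
    ∃ (O : Set E) (r : ℝ) (s : E × F → Y), IsOpen O ∧ z₀ ∈ O ∧ O ⊆ U ∧ 0 < r ∧
      MDifferentiableOn 𝓘(ℂ, E × F) 𝓘(ℂ, F) s (O ×ˢ ball 0 r) ∧ (∀ z ∈ O, s (z, 0) = f z) ∧
      ∀ z ∈ O, ∀ t ∈ ball (0 : F) r, EtaleAt F s (z, t) := by
  set φ := chartAt F (f z₀) with hφ
  have hsrc : f z₀ ∈ φ.source := mem_chart_source F (f z₀)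
  have htgt : φ (f z₀) ∈ φ.target := φ.map_source hsrc
  obtain ⟨ρ, hρ, hball⟩ := Metric.isOpen_iff.mp φ.open_target _ htgt
  have hr : 0 < ρ / 2 := by positivity
  -- the open set
  have hcf : ContinuousOn f U := hf.continuousOn
  have hO₁ : IsOpen (U ∩ f ⁻¹' φ.source) := hcf.isOpen_inter_preimage hU φ.open_source
  have hcφf : ContinuousOn (fun z => φ (f z)) (U ∩ f ⁻¹' φ.source) :=
    φ.continuousOn.comp (hcf.mono inter_subset_left) (fun z hz => hz.2)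
  set O : Set E := (U ∩ f ⁻¹' φ.source) ∩ (fun z => φ (f z)) ⁻¹' ball (φ (f z₀)) (ρ / 2)
    with hOdef
  have hO : IsOpen O := hcφf.isOpen_inter_preimage hO₁ isOpen_ball
  have hOU : O ⊆ U := fun z hz => hz.1.1
  have hOs : ∀ z ∈ O, f z ∈ φ.source := fun z hz => hz.1.2
  have hOb : ∀ z ∈ O, ∀ t ∈ ball (0 : F) (ρ / 2), φ (f z) + t ∈ φ.target := by
    intro z hz t ht
    apply hball
    have h1 : dist (φ (f z)) (φ (f z₀)) < ρ / 2 := hz.2
    have h2 : ‖t‖ < ρ / 2 := by simpa using ht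
    rw [mem_ball, dist_eq_norm] at *
    calc ‖φ (f z) + t - φ (f z₀)‖ = ‖(φ (f z) - φ (f z₀)) + t‖ := by congr 1; abel
      _ ≤ ‖φ (f z) - φ (f z₀)‖ + ‖t‖ := norm_add_le _ _
      _ < ρ := by linarith
  have hdf : DifferentiableOn ℂ (fun z => φ (f z)) O :=
    C1.chart_comp F (f z₀) (hf.mono hOU) hOs
  have hcO : ContinuousOn (fun z => φ (f z)) O := hdf.continuousOn
  refine ⟨O, ρ / 2, fun x => φ.symm (φ (f x.1) + x.2), hO, ⟨⟨hz₀, hsrc⟩, ?_⟩, hOU, hr, ?_, ?_, ?_⟩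
  · simpa using hr
  · refine C1.symm_comp F (f z₀) ?_ ?_
    · refine DifferentiableOn.add ?_ differentiableOn_snd
      exact hdf.comp differentiableOn_fst (fun x hx => hx.1)
    · rintro ⟨z, t⟩ ⟨hz, ht⟩
      exact hOb z hz t ht
  · intro z hz
    simp only [add_zero]
    exact φ.left_inv (hOs z hz)
  · intro z hz t ht
    set Θ : E × Y → F := fun x => φ x.2 - φ (f x.1) with hΘ
    have hcΘ : ContinuousOn Θ (O ×ˢ φ.source) := by
      refine ContinuousOn.sub ?_ ?_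
      · exact φ.continuousOn.comp continuousOn_snd (fun x hx => hx.2)
      · exact hcO.comp continuousOn_fst (fun x hx => hx.1)
    refine ⟨O ×ˢ ball 0 (ρ / 2), (O ×ˢ φ.source) ∩ Θ ⁻¹' ball 0 (ρ / 2), Θ, hO.prod isOpen_ball,
      ⟨hz, ht⟩, hcΘ.isOpen_inter_preimage (hO.prod φ.open_source) isOpen_ball,
      hcΘ.mono inter_subset_left, ?_, ?_, ?_⟩
    · rintro w τ ⟨hw, hτ⟩
      have h1 : φ (φ.symm (φ (f w) + τ)) = φ (f w) + τ := φ.right_inv (hOb w hw τ hτ)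
      have h2 : Θ (w, φ.symm (φ (f w) + τ)) = τ := by
        simp only [hΘ, h1]; abel
      refine ⟨⟨⟨hw, φ.map_target (hOb w hw τ hτ)⟩, ?_⟩, h2⟩
      show Θ (w, φ.symm (φ (f w) + τ)) ∈ ball 0 (ρ / 2)
      rw [h2]; exact hτ
    · rintro w y ⟨⟨hw, hy⟩, hb⟩
      refine ⟨⟨hw, hb⟩, ?_⟩
      show φ.symm (φ (f w) + (φ y - φ (f w))) = y
      rw [show φ (f w) + (φ y - φ (f w)) = φ y by abel]
      exact φ.left_inv hy
    · intro Z _ _ _ D q g _ hq hg hN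
      refine DifferentiableOn.sub ?_ ?_
      · exact C1.chart_comp F (f z₀) hg (fun x hx => (hN x hx).1.2)
      · exact hdf.comp hq (fun x hx => (hN x hx).1.1)

end Pool.Agent.Helper85.OKA
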