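import Pool.Agent.Helper74.OKA.Defs
import Pool.Agent.Helper74.OKA.St.A03

/-! # C2: reparametrisation of étale families -/

set_option autoImplicit false

open Set Metric Topology
open scoped Manifold ContDiff

namespace Pool.Agent.Helper85.OKA

open Pool.Agent.Helper74.OKA

universe u

namespace C2

variable {F : Type} [NormedAddCommGroup F] [NormedSpace ℂ F] [FiniteDimensional ℂ F]
  {E : Type} [NormedAddCommGroup E] [NormedSpace ℂ E] [FiniteDimensional ℂ E]

/-- the inverse function theorem with a parameter -/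
theorem exists_inverse (τ : E × F → F) (z₀ : E) (t₀ : F) (O : Set (E × F)) (hO : IsOpen O)
    (h₀ : (z₀, t₀) ∈ O) (hτ : DifferentiableOn ℂ τ O)
    (hD : Function.Bijective (fderiv ℂ (fun t => τ (z₀, t)) t₀)) :
    ∃ e : OpenPartialHomeomorph (E × F) (E × F), (z₀, t₀) ∈ e.source ∧ e.source ⊆ O ∧
      (∀ x, e x = (x.1, τ x)) ∧ DifferentiableOn ℂ e.symm e.target := by
  classical
  set T : E × F → E × F := fun x => (x.1, τ x) with hT
  have hTO : DifferentiableOn ℂ T O := differentiableOn_fst.prodMk hτ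
  have hTC : ContDiffOn ℂ 1 T O := by
    have := contDiffOn_of_differentiableOn hO hTO 1
    simpa using this
  have hTat : ContDiffAt ℂ 1 T (z₀, t₀) := hTC.contDiffAt (hO.mem_nhds h₀)
  -- the derivative
  have hτat : DifferentiableAt ℂ τ (z₀, t₀) := hτ.differentiableAt (hO.mem_nhds h₀)
  set τ' := fderiv ℂ τ (z₀, t₀) with hτ'
  have hpart : fderiv ℂ (fun t => τ (z₀, t)) t₀ = τ'.comp (ContinuousLinearMap.inr ℂ E F) := by
    have h1 : HasFDerivAt (fun t : F => (z₀, t)) (ContinuousLinearMap.inr ℂ E F) t₀ :=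
      hasFDerivAt_prodMk_right z₀ t₀
    exact (hτat.hasFDerivAt.comp t₀ h1).fderiv
  rw [hpart] at hD
  set L : E × F →L[ℂ] E × F := (ContinuousLinearMap.fst ℂ E F).prod τ' with hL
  have hTL : HasFDerivAt T L (z₀, t₀) := hasFDerivAt_fst.prodMk hτat.hasFDerivAt
  have hadd : ∀ v w, τ' (v, w) = τ' (v, 0) + τ' (0, w) := by
    intro v w
    rw [← map_add]; simp
  have hLinj : Function.Injective L := by
    rw [injective_iff_map_eq_zero]
    rintro ⟨v, w⟩ h
    simp only [hL, ContinuousLinearMap.prod_apply, ContinuousLinearMap.coe_fst',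
      Prod.mk_eq_zero] at h
    obtain ⟨rfl, h⟩ := h
    have : w = 0 := by
      apply hD.1
      simp only [ContinuousLinearMap.coe_comp, Function.comp_apply,
        ContinuousLinearMap.inr_apply]
      rw [h, ← Prod.zero_eq_mk, map_zero]
    simp [this]
  have hLsurj : Function.Surjective L := by
    rintro ⟨v, u⟩
    obtain ⟨w, hw⟩ := hD.2 (u - τ' (v, 0))
    refine ⟨(v, w), ?_⟩
    simp only [ContinuousLinearMap.coe_comp, Function.comp_apply,
      ContinuousLinearMap.inr_apply] at hw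
    simp only [hL, ContinuousLinearMap.prod_apply, ContinuousLinearMap.coe_fst']
    rw [hadd, hw]
    simp
  have : CompleteSpace (E × F) := FiniteDimensional.complete ℂ (E × F)
  set L' : (E × F) ≃L[ℂ] (E × F) := ContinuousLinearEquiv.ofBijective L
    (LinearMap.ker_eq_bot.mpr hLinj) (LinearMap.range_eq_top.mpr hLsurj) with hL'
  have hLL' : (L' : E × F →L[ℂ] E × F) = L := by
    ext x <;> simp [hL']
  have hTL' : HasFDerivAt T (L' : E × F →L[ℂ] E × F) (z₀, t₀) := by rw [hLL']; exact hTL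
  have hstr : HasStrictFDerivAt T (L' : E × F →L[ℂ] E × F) (z₀, t₀) :=
    hTat.hasStrictFDerivAt' hTL' (by simp)
  set e₀ := hstr.toOpenPartialHomeomorph T with he₀
  have he₀T : ∀ x, e₀ x = T x := fun x => rfl
  -- the open set on which the derivative is invertible
  have hfc : ContinuousOn (fderiv ℂ T) O := hTC.continuousOn_fderiv_of_isOpen hO le_rfl
  set O' : Set (E × F) := O ∩ (fderiv ℂ T) ⁻¹' range
    ((↑) : ((E × F) ≃L[ℂ] (E × F)) → (E × F) →L[ℂ] (E × F)) with hO'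
  have hO'o : IsOpen O' := hfc.isOpen_inter_preimage hO (ContinuousLinearEquiv.isOpen)
  have hx₀ : (z₀, t₀) ∈ O' := ⟨h₀, L', by rw [hTL'.fderiv]⟩
  refine ⟨e₀.restrOpen O' hO'o, ⟨hstr.mem_toOpenPartialHomeomorph_source, hx₀⟩,
    fun x hx => hx.2.1, fun x => rfl, ?_⟩
  intro y hy
  have hy2 : (e₀.restrOpen O' hO'o).symm y ∈ (e₀.restrOpen O' hO'o).source :=
    (e₀.restrOpen O' hO'o).map_target hy
  obtain ⟨hxO, M, hM⟩ := hy2.2
  have hd : HasFDerivAt (e₀.restrOpen O' hO'o) (M : (E × F) →L[ℂ] (E × F))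
      ((e₀.restrOpen O' hO'o).symm y) := by
    have h1 : HasFDerivAt T (fderiv ℂ T ((e₀.restrOpen O' hO'o).symm y))
        ((e₀.restrOpen O' hO'o).symm y) :=
      (hTO.differentiableAt (hO.mem_nhds hxO)).hasFDerivAt
    rw [← hM] at h1
    exact h1
  exact ((e₀.restrOpen O' hO'o).hasFDerivAt_symm hy hd).differentiableAt.differentiableWithinAt

end C2

variable (F : Type) [NormedAddCommGroup F] [NormedSpace ℂ F] [FiniteDimensional ℂ F]
  {Y : Type u} [MetricSpace Y] [ChartedSpace F Y] [IsManifold 𝓘(ℂ, F) 1 Y]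
  {E : Type} [NormedAddCommGroup E] [NormedSpace ℂ E] [FiniteDimensional ℂ E]

/-- C2: reparametrisation of an étale family -/
theorem EtaleAt.reparam {s : E × F → Y} {z₀ : E} {t₀ : F} (τ : E × F → F)
    (h : EtaleAt F s (z₀, τ (z₀, t₀))) (O : Set (E × F)) (hO : IsOpen O) (h₀ : (z₀, t₀) ∈ O)
    (hτ : DifferentiableOn ℂ τ O)
    (hD : Function.Bijective (fderiv ℂ (fun t => τ (z₀, t)) t₀)) :
    EtaleAt F (fun x => s (x.1, τ x)) (z₀, t₀) := by
  obtain ⟨e, hxe, heO, heT, hsymm⟩ := C2.exists_inverse τ z₀ t₀ O hO h₀ hτ hD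
  obtain ⟨O₁, N₁, Θ₁, hO₁, hx₁, hN₁, hcΘ₁, h1, h2, h3⟩ := h
  have hopen : IsOpen (e.source ∩ e ⁻¹' O₁) := e.continuousOn.isOpen_inter_preimage e.open_source hO₁
  set e' := e.restrOpen _ hopen with he'
  have hsrc : e'.source = e.source ∩ e ⁻¹' O₁ := by
    rw [he', OpenPartialHomeomorph.restrOpen_source]
    ext x; constructor
    · rintro ⟨_, h⟩; exact h
    · intro h; exact ⟨h.1, h⟩
  have he'T : ∀ x, e' x = (x.1, τ x) := fun x => heT x
  have htgt : e'.target ⊆ e.target := fun y hy => hy.1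
  have hsymm' : DifferentiableOn ℂ e'.symm e'.target := hsymm.mono htgt
  have hcg : ContinuousOn (fun x : E × Y => (x.1, Θ₁ x)) N₁ := continuousOn_fst.prodMk hcΘ₁
  have hfst : ∀ y ∈ e'.target, (e'.symm y).1 = y.1 ∧ τ (e'.symm y) = y.2 := by
    intro y hy
    have h9 : e' (e'.symm y) = y := e'.right_inv hy
    have h10 := he'T (e'.symm y)
    rw [h9] at h10
    exact ⟨(congrArg Prod.fst h10).symm, (congrArg Prod.snd h10).symm⟩
  refine ⟨e'.source, N₁ ∩ (fun x : E × Y => (x.1, Θ₁ x)) ⁻¹' e'.target,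
    fun x => (e'.symm (x.1, Θ₁ x)).2, e'.open_source, ?_,
    hcg.isOpen_inter_preimage hN₁ e'.open_target, ?_, ?_, ?_, ?_⟩
  · rw [hsrc]
    refine ⟨hxe, ?_⟩
    show e (z₀, t₀) ∈ O₁
    rw [heT]; exact hx₁
  · refine continuousOn_snd.comp (e'.symm.continuousOn.comp (hcg.mono inter_subset_left)
      (fun x hx => hx.2)) (fun x _ => mem_univ _)
  · intro z t hzt
    have hzt' := hzt
    rw [hsrc] at hzt'
    have h4 : (z, τ (z, t)) ∈ O₁ := by
      have := hzt'.2
      rw [mem_preimage, heT] at this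
      exact this
    obtain ⟨h5, h6⟩ := h1 z (τ (z, t)) h4
    have h7 : (z, Θ₁ (z, s (z, τ (z, t)))) = e' (z, t) := by rw [h6, he'T]
    refine ⟨⟨h5, ?_⟩, ?_⟩
    · show (z, Θ₁ (z, s (z, τ (z, t)))) ∈ e'.target
      rw [h7]; exact e'.map_source hzt
    · show (e'.symm (z, Θ₁ (z, s (z, τ (z, t))))).2 = t
      rw [h7, e'.left_inv hzt]
  · rintro z y ⟨hN, ht⟩
    have ht' : (z, Θ₁ (z, y)) ∈ e'.target := ht
    obtain ⟨h4, h5⟩ := hfst _ ht'
    have h6 : (z, (e'.symm (z, Θ₁ (z, y))).2) = e'.symm (z, Θ₁ (z, y)) := by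
      ext
      · exact h4.symm
      · rfl
    refine ⟨?_, ?_⟩
    · show (z, (e'.symm (z, Θ₁ (z, y))).2) ∈ e'.source
      rw [h6]; exact e'.map_target ht'
    · show s (z, τ (z, (e'.symm (z, Θ₁ (z, y))).2)) = y
      rw [h6, h5]
      exact (h2 z y hN).2
  · intro Z _ _ _ D q g hD' hq hg hN
    have h4 : DifferentiableOn ℂ (fun x => Θ₁ (q x, g x)) D :=
      h3 Z D q g hD' hq hg (fun x hx => (hN x hx).1)
    have h5 : DifferentiableOn ℂ (fun x => e'.symm (q x, Θ₁ (q x, g x))) D :=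
      hsymm'.comp (hq.prodMk h4) (fun x hx => (hN x hx).2)
    exact h5.snd

end Pool.Agent.Helper85.OKA
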