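import Pool.Agent.Helper74.OKA.Defs

/-! # B5: ball-like compact sets have the approximation property -/

set_option autoImplicit false

open Set Metric Topology
open scoped Manifold ContDiff

namespace Pool.Agent.Helper85.OKA

open Pool.Agent.Helper74.OKA

universe u

namespace B5

variable (F : Type) [NormedAddCommGroup F] [NormedSpace ℂ F]
  (Y : Type u) [MetricSpace Y] [ChartedSpace F Y]

/-- the ball approximation property for the unit ball of any finite dimensional Hilbert space -/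
theorem bap_inner (hB : BAP F Y) (H : Type) [NormedAddCommGroup H] [InnerProductSpace ℂ H]
    [FiniteDimensional ℂ H] (V : Set H) (hV : IsOpen V) (hcV : closedBall 0 1 ⊆ V) (f : H → Y)
    (hf : MDifferentiableOn 𝓘(ℂ, H) 𝓘(ℂ, F) f V) (ε : ℝ) (hε : 0 < ε) :
    ∃ g : H → Y, MDifferentiable 𝓘(ℂ, H) 𝓘(ℂ, F) g ∧
      ∀ z ∈ closedBall (0 : H) 1, dist (g z) (f z) < ε := by
  rcases Nat.eq_zero_or_pos (Module.finrank ℂ H) with h0 | hpos
  · have hsub : Subsingleton H := Module.finrank_zero_iff.mp h0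
    refine ⟨f, ?_, fun z _ => by simpa using hε⟩
    intro x
    have hx : f = fun _ => f x := funext fun y => by rw [Subsingleton.elim y x]
    rw [hx]
    exact mdifferentiableAt_const
  · set n := Module.finrank ℂ H with hn
    set e : H ≃ₗᵢ[ℂ] EuclideanSpace ℂ (Fin n) := (stdOrthonormalBasis ℂ H).repr with he
    have hd : Differentiable ℂ e.symm := e.symm.toContinuousLinearEquiv.differentiable
    have hd' : Differentiable ℂ e := e.toContinuousLinearEquiv.differentiable
    obtain ⟨g, hg, hgf⟩ := hB n hpos 0 1 one_pos (e.symm ⁻¹' V) (f ∘ e.symm)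
      (hV.preimage e.symm.continuous) (fun z hz => hcV (by simpa using hz))
      (hf.comp hd.mdifferentiable.mdifferentiableOn (fun z hz => hz)) ε hε
    refine ⟨g ∘ e, hg.comp hd'.mdifferentiable, fun z hz => ?_⟩
    have := hgf (e z) (by simpa using hz)
    simpa using this

end B5

variable {E : Type} [NormedAddCommGroup E] [NormedSpace ℂ E] [FiniteDimensional ℂ E]

variable (F : Type) [NormedAddCommGroup F] [NormedSpace ℂ F] [FiniteDimensional ℂ F]
  (Y : Type u) [MetricSpace Y] [ChartedSpace F Y] [IsManifold 𝓘(ℂ, F) 1 Y]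

/-- B5 -/
theorem approx_of_ballLike (hB : BAP F Y) {K : Set E} (hK : IsCompact K) (h : BallLike K) :
    Approx F Y K := by
  intro U hU hKU
  obtain ⟨H, _, _, _, Φ, V, W, hV, hcV, hΦ, hmaps, hW, hKW, hWU, hψ⟩ := h U hU hKU
  have hprop : ProperSpace E := FiniteDimensional.proper ℂ E
  obtain ⟨C, hC, hKC, hCW⟩ := exists_compact_between hK hW hKW
  refine ⟨interior C, isOpen_interior, hKC, interior_subset.trans (hCW.trans hWU), ?_⟩
  intro f hf ε hε
  obtain ⟨g₀, hg₀, hgf⟩ := B5.bap_inner F Y hB H V hV hcV (f ∘ Φ)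
    (hf.comp hΦ.mdifferentiableOn hmaps) (ε / 2) (by positivity)
  have hcf : ∀ a ∈ C, ContinuousAt f a := fun a ha =>
    hf.continuousOn.continuousAt (hU.mem_nhds (hWU (hCW ha)))
  have hunif := hC.uniformContinuousAt_of_continuousAt f hcf
    (Metric.dist_mem_uniformity (half_pos hε))
  obtain ⟨δ, hδ, hδf⟩ := Metric.mem_uniformity_dist.mp hunif
  obtain ⟨ψ, hψd, hψW⟩ := hψ δ hδ
  refine ⟨g₀ ∘ ψ, hg₀.comp hψd.mdifferentiable, fun z hz => ?_⟩
  have hzC : z ∈ C := interior_subset hz
  obtain ⟨h1, h2⟩ := hψW z (hCW hzC)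
  have h3 : dist (g₀ (ψ z)) (f (Φ (ψ z))) < ε / 2 := hgf _ (by simpa using h1)
  have h4 : dist (f z) (f (Φ (ψ z))) < ε / 2 := by
    apply hδf _ hzC
    rw [dist_comm, dist_eq_norm]
    exact h2
  calc dist (g₀ (ψ z)) (f z) ≤ dist (g₀ (ψ z)) (f (Φ (ψ z))) + dist (f (Φ (ψ z))) (f z) :=
        dist_triangle _ _ _
    _ < ε := by rw [dist_comm (f (Φ (ψ z))) (f z)]; linarith

end Pool.Agent.Helper85.OKA
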